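import Pool.Agent.K7.H45.AB.Sys

set_option autoImplicit false

/-!
# Finite automata reading the digits of `n` in a base `b`
-/

namespace Pool.Agent.K7.H45.AB

open PowerSeries

theorem mahl {b : ℕ} (hb : 2 ≤ b) {𝒰 : Set S} (h1 : (1 : S) ∈ 𝒰) (u : ℕ → ZMod 2)
    (v : ℕ → ℕ → ZMod 2) (hv : ∀ r < b, (PowerSeries.mk (v r) : S) ∈ 𝒰)
    (huv : ∀ n, 0 < n → u n = v (n % b) (n / b)) :
    (PowerSeries.mk u : S) ∈ Pd b (dl b '' 𝒰) := by
  classical
  have hb0 : b ≠ 0 := by omega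
  have hbp : 0 < b := by omega
  have key : (PowerSeries.mk u : S) =
      ∑ r ∈ Finset.range b, pc (Polynomial.X ^ r) * dl b (PowerSeries.mk (v r)) +
        pc (Polynomial.C (u 0 - v 0 0)) * 1 := by
    ext n
    rw [coeff_mk, map_add, map_sum, mul_one, coeff_pc]
    have e1 : ∀ r ∈ Finset.range b, coeff n (pc (Polynomial.X ^ r) * dl b (PowerSeries.mk (v r))) =
        if r = n % b then v r (n / b) else 0 := by
      intro r hr
      rw [Finset.mem_range] at hr
      rw [map_pow pc, pc_X, PowerSeries.coeff_X_pow_mul', coeff_dl hb0, coeff_mk]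
      have hdm := Nat.div_add_mod n b
      by_cases hrn : r = n % b
      · have h2 : r ≤ n := by rw [hrn]; exact Nat.mod_le _ _
        have h3 : n - r = b * (n / b) := by omega
        rw [if_pos hrn, if_pos h2, h3, if_pos (Dvd.intro _ rfl), Nat.mul_div_cancel_left _ hbp]
      · rw [if_neg hrn]
        by_cases h2 : r ≤ n
        · rw [if_pos h2, if_neg]
          rintro ⟨k, hk⟩
          apply hrn
          have h3 : n = b * k + r := by omega
          rw [h3, Nat.mul_add_mod, Nat.mod_eq_of_lt hr]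
        · rw [if_neg h2]
    rw [Finset.sum_congr rfl e1, Finset.sum_ite_eq', if_pos (Finset.mem_range.2 (Nat.mod_lt _ hbp)),
      Polynomial.coeff_C]
    by_cases hn : n = 0
    · subst hn
      rw [if_pos rfl, Nat.zero_mod, Nat.zero_div]
      ring
    · rw [if_neg hn, add_zero, huv n (Nat.pos_of_ne_zero hn)]
  rw [key]
  refine Submodule.add_mem _ (Submodule.sum_mem _ fun r hr => ?_) ?_
  · rw [Finset.mem_range] at hr
    refine Pd_mem ?_ ⟨_, hv r hr, rfl⟩
    rw [Polynomial.natDegree_X_pow]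
    exact hr.le
  · refine Pd_mem ?_ ⟨1, h1, map_one _⟩
    rw [Polynomial.natDegree_C]
    exact Nat.zero_le _

/-- `u(n)` is computed by a finite automaton with at most `Q` states reading the digits of `n` in
base `b` -/
def Aut (Q b : ℕ) (u : ℕ → ZMod 2) : Prop :=
  ∃ (s : ℕ) (δ : Fin s → ℕ → Fin s) (q : Fin s) (h : Fin s → ZMod 2), s ≤ Q ∧
    ((∀ n, u n = h ((Nat.digits b n).foldl δ q)) ∨
      (∀ n, u n = h ((Nat.digits b n).reverse.foldl δ q)))

/-- codes of automata -/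
abbrev Code (Q b : ℕ) : Type := (s : Fin (Q + 1)) ×
  (Bool × (Fin (s : ℕ) → Fin b → Fin (s : ℕ)) × Fin (s : ℕ) × (Fin (s : ℕ) → ZMod 2))

/-- the transition function on all naturals -/
def ext {s b : ℕ} (hb : 0 < b) (δ : Fin s → Fin b → Fin s) (x : Fin s) (d : ℕ) : Fin s :=
  δ x ⟨d % b, Nat.mod_lt _ hb⟩

/-- the output -/
def run {Q b : ℕ} (hb : 0 < b) (c : Code Q b) (n : ℕ) : ZMod 2 :=
  if c.2.1 then c.2.2.2.2 ((Nat.digits b n).reverse.foldl (ext hb c.2.2.1) c.2.2.2.1)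
    else c.2.2.2.2 ((Nat.digits b n).foldl (ext hb c.2.2.1) c.2.2.2.1)

/-- restriction to the digits -/
def res {s b : ℕ} (δ : Fin s → ℕ → Fin s) (x : Fin s) (d : Fin b) : Fin s := δ x d

theorem ext_res {s b : ℕ} (hb : 0 < b) (δ : Fin s → ℕ → Fin s) (x : Fin s) {d : ℕ} (hd : d < b) :
    ext hb (res δ) x d = δ x d := by
  change δ x (d % b) = δ x d
  rw [Nat.mod_eq_of_lt hd]

theorem foldl_ext_res {s b : ℕ} (hb : 0 < b) (δ : Fin s → ℕ → Fin s) (x : Fin s) (l : List ℕ)
    (hl : ∀ d ∈ l, d < b) : l.foldl (ext hb (res δ)) x = l.foldl δ x := by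
  induction l generalizing x with
  | nil => rfl
  | cons d l ih =>
    rw [List.foldl_cons, List.foldl_cons, ext_res hb δ x (hl d List.mem_cons_self)]
    exact ih _ fun d' hd' => hl d' (List.mem_cons_of_mem _ hd')

/-- the finite Mahler system of the automata of base `b` with at most `Q` states -/
def AutSet (Q b : ℕ) : Set S := {1} ∪ {U | ∃ u, Aut Q b u ∧ U = PowerSeries.mk u}

theorem autSet_finite (Q : ℕ) {b : ℕ} (hb : 2 ≤ b) : (AutSet Q b).Finite := by
  have hb0 : 0 < b := by omega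
  refine (Set.finite_singleton _).union ?_
  refine (Set.finite_range fun c : Code Q b => (PowerSeries.mk (run hb0 c) : S)).subset ?_
  rintro _ ⟨u, ⟨s, δ, q, h, hs, hu⟩, rfl⟩
  have hdig : ∀ n, ∀ d ∈ Nat.digits b n, d < b := fun n d hd => Nat.digits_lt_base (by omega) hd
  have hdig' : ∀ n, ∀ d ∈ (Nat.digits b n).reverse, d < b := fun n d hd =>
    hdig n d (List.mem_reverse.1 hd)
  rcases hu with hu | hu
  · refine ⟨⟨⟨s, by omega⟩, false, res δ, q, h⟩, ?_⟩
    dsimp only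
    congr 1
    funext n
    rw [hu]
    unfold run
    dsimp only
    rw [foldl_ext_res hb0 δ q _ (hdig n)]
    rfl
  · refine ⟨⟨⟨s, by omega⟩, true, res δ, q, h⟩, ?_⟩
    dsimp only
    congr 1
    funext n
    rw [hu]
    unfold run
    dsimp only
    rw [foldl_ext_res hb0 δ q _ (hdig' n)]
    rfl

theorem mah_autSet (Q : ℕ) {b : ℕ} (hb : 2 ≤ b) : Mah b (AutSet Q b) := by
  refine ⟨autSet_finite Q hb, ?_⟩
  have h1m : (1 : S) ∈ AutSet Q b := Or.inl rfl
  rintro U (hU | ⟨u, ⟨s, δ, q, h, hs, hu⟩, rfl⟩)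
  · have h1 : U = 1 := hU
    rw [h1]
    refine ⟨1, one_ne_zero, 0, ?_⟩
    rw [map_one, mul_one]
    exact Pd_self ⟨1, h1m, map_one _⟩
  · refine ⟨1, one_ne_zero, b, ?_⟩
    rw [map_one, one_mul]
    rcases hu with hu | hu
    · refine mahl hb h1m u (fun r n => h ((Nat.digits b n).foldl δ (δ q r))) (fun r _ => Or.inr
        ⟨_, ⟨s, δ, δ q r, h, hs, Or.inl fun n => rfl⟩, rfl⟩) fun n hn => ?_
      rw [hu, Nat.digits_def' (by omega) hn, List.foldl_cons]
    · refine mahl hb h1m u (fun r n => h (δ ((Nat.digits b n).reverse.foldl δ q) r)) (fun r _ =>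
        Or.inr ⟨_, ⟨s, δ, q, fun x => h (δ x r), hs, Or.inr fun n => rfl⟩, rfl⟩) fun n hn => ?_
      rw [hu, Nat.digits_def' (by omega) hn, List.reverse_cons, List.foldl_append]
      rfl

end Pool.Agent.K7.H45.AB
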