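import Pool.Agent.K7.H45.AB.Sys
import Pool.Agent.Y627.PT.Eta

set_option autoImplicit false

/-!
# Independence of the dilates of an eta-quotient modulo 2
-/

namespace Pool.Agent.K7.H45.AB

open PowerSeries Pool.Agent.Y627.PT Pool.Agent.TH693.PP Pool.Agent.TH693.QQ
open Pool.Agent.H397R2.PP

theorem distinct_orders {ι : Type} (T : Finset ι) (t : ι → AB.S) (o : ι → ℕ)
    (hinj : Set.InjOn o (T : Set ι)) (ht : ∀ i ∈ T, coeff (o i) (t i) ≠ 0)
    (ht0 : ∀ i ∈ T, ∀ n < o i, coeff n (t i) = 0) (hsum : ∑ i ∈ T, t i = 0) : T = ∅ := by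
  classical
  by_contra hne
  obtain ⟨i, hi, hmin⟩ := Finset.exists_min_image T o (Finset.nonempty_iff_ne_empty.2 hne)
  have h1 := congrArg (coeff (o i)) hsum
  rw [map_sum, map_zero, Finset.sum_eq_single i] at h1
  · exact ht i hi h1
  · intro j hj hji
    apply ht0 j hj
    refine lt_of_le_of_ne (hmin j hj) fun h => hji (hinj hj hi h.symm)
  · exact fun h => absurd hi h

theorem dl_eq_ex {d : ℕ} (hd : d ≠ 0) (g : AB.S) : dl d g = ex d hd g := by
  rw [dl_of_ne hd]
  rfl

theorem pc_eq_io (p : AB.F) : pc p = io p := rfl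

theorem zmod2_eq_one {a : ZMod 2} (h : a ≠ 0) : a = 1 := by
  revert a
  decide

/-- the leading behaviour of a nonconstant series -/
theorem exists_low {G : AB.S} (hG : constantCoeff G = 1) (hG1 : G ≠ 1) :
    ∃ r, 0 < r ∧ coeff r G = 1 ∧ ∀ n, 0 < n → n < r → coeff n G = 0 := by
  classical
  have h1 : ∃ n, 0 < n ∧ coeff n G ≠ 0 := by
    by_contra hcon
    push Not at hcon
    apply hG1
    ext n
    rw [coeff_one]
    split_ifs with hn
    · rw [hn, coeff_zero_eq_constantCoeff_apply, hG]
    · exact hcon n (Nat.pos_of_ne_zero hn)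
  refine ⟨Nat.find h1, (Nat.find_spec h1).1, zmod2_eq_one (Nat.find_spec h1).2, ?_⟩
  intro n hn hlt
  have h2 := Nat.find_min h1 hlt
  by_contra h3
  exact h2 ⟨hn, h3⟩

theorem indep {G : AB.S} {s : ℤ} (hAZ : AZ (T5.jj G) s) (hG : constantCoeff G = 1) (hG1 : G ≠ 1)
    {J : Finset ℕ} (hJ : 0 ∉ J) (a : ℕ → AB.F) (b : AB.F)
    (hrel : ∑ m ∈ J, pc (a m) * dl m G + pc b = 0) : ∀ m ∈ J, a m = 0 := by
  classical
  intro m0 hm0
  apply Polynomial.ext
  intro n0
  rw [Polynomial.coeff_zero]
  by_contra hcon
  have hJ0 : ∀ m ∈ J, m ≠ 0 := fun m hm h => hJ (h ▸ hm)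
  -- common shift
  obtain ⟨k0, hk0⟩ : ∃ k0 : ℕ, ∀ m ∈ J, 0 ≤ 24 * (k0 : ℤ) + m * s := by
    refine ⟨∑ m ∈ J, (m * s).natAbs, fun m hm => ?_⟩
    have h1 : ((m : ℤ) * s).natAbs ≤ ∑ m ∈ J, ((m : ℤ) * s).natAbs :=
      Finset.single_le_sum (f := fun m : ℕ => ((m : ℤ) * s).natAbs) (fun _ _ => Nat.zero_le _) hm
    omega
  set e : ℕ → ℕ := fun m => (24 * (k0 : ℤ) + m * s).toNat with he
  have hez : ∀ m ∈ J, (e m : ℤ) = 24 * k0 + m * s := fun m hm => Int.toNat_of_nonneg (hk0 m hm)
  set g : J → AB.S := fun m => X ^ k0 * dl m G with hg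
  have hALX : ∀ m : J, ALX (g m) (e m) := by
    intro m
    apply alx_of_az
    have hm := hJ0 m m.2
    rw [hez m m.2, hg]
    dsimp only
    rw [dl_eq_ex hm, map_mul, map_pow]
    exact az_mul (az_x k0) (az_ex hm hAZ)
  have hrel2 : ∑ m : J, io (a m) * g m + io (Polynomial.X ^ k0 * b) = 0 := by
    have h1 : ∑ m : J, io (a m) * g m = X ^ k0 * ∑ m ∈ J, pc (a m) * dl m G := by
      rw [Finset.mul_sum, ← Finset.sum_coe_sort J]
      refine Finset.sum_congr rfl fun m _ => ?_
      rw [hg]
      dsimp only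
      rw [pc_eq_io]
      ring
    rw [h1, map_mul, map_pow, QE2.io_X, ← mul_add, ← pc_eq_io, hrel, mul_zero]
  set E : ℕ := 24 * n0 + e m0 with hE
  have h6 := lin0 QC.qc J g (fun m => e m) hALX (fun m => a m) (Polynomial.X ^ k0 * b) hrel2 E
  set c : ℕ → ZMod 2 := fun m => if e m ≤ E ∧ 24 ∣ E - e m then (a m).coeff ((E - e m) / 24) else 0
    with hc
  set c0 : ZMod 2 := if 24 ∣ E then (Polynomial.X ^ k0 * b).coeff (E / 24) else 0 with hc0
  set o : ℕ → ℕ := fun m => (E - e m) / 24 + k0 with ho
  have hcm : c m0 ≠ 0 := by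
    rw [hc]
    dsimp only
    rw [hE, Nat.add_sub_cancel, if_pos ⟨by omega, Dvd.intro n0 rfl⟩,
      Nat.mul_div_cancel_left _ (by norm_num : 0 < 24)]
    exact hcon
  have hoz : ∀ m ∈ J, c m ≠ 0 → (24 * o m : ℤ) = E - m * s := by
    intro m hm hne
    rw [hc] at hne
    dsimp only at hne
    have hcond : e m ≤ E ∧ 24 ∣ E - e m := by
      by_contra h
      rw [if_neg h] at hne
      exact hne rfl
    obtain ⟨hle, q, hq⟩ := hcond
    have h2 := hez m hm
    have h3 : o m = q + k0 := by
      rw [ho]
      dsimp only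
      rw [hq, Nat.mul_div_cancel_left _ (by norm_num : 0 < 24)]
    have h4 : (E : ℤ) = 24 * q + e m := by
      have : E = 24 * q + e m := by omega
      exact_mod_cast this
    rw [h3, h4, h2]
    push_cast
    ring
  have hoz0 : c0 ≠ 0 → (24 * (E / 24 : ℕ) : ℤ) = E := by
    intro hne
    have hd : 24 ∣ E := by
      by_contra h
      rw [hc0, if_neg h] at hne
      exact hne rfl
    exact_mod_cast Nat.mul_div_cancel' hd
  have hterm : ∀ m : J, (if e m ≤ E ∧ 24 ∣ E - e m then
      io (Polynomial.monomial ((E - e m) / 24) ((a m).coeff ((E - e m) / 24))) * g m else 0) =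
      c m • (X ^ o m * dl m G) := by
    intro m
    rw [hc]
    dsimp only
    split_ifs with hcond
    · rw [← Polynomial.C_mul_X_pow_eq_monomial, map_mul, map_pow, QE2.io_X, QE2.io_C,
        Algebra.smul_def, hg, ho]
      dsimp only
      rw [pow_add]
      ring
    · rw [zero_smul]
  have hlast : (if 24 ∣ E then io (Polynomial.monomial (E / 24)
      ((Polynomial.X ^ k0 * b).coeff (E / 24))) else 0) = c0 • (X : AB.S) ^ (E / 24) := by
    rw [hc0]
    split_ifs
    · rw [← Polynomial.C_mul_X_pow_eq_monomial, map_mul, map_pow, QE2.io_X, QE2.io_C,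
        Algebra.smul_def]
    · rw [zero_smul]
  rw [Finset.sum_congr rfl fun m _ => hterm m, hlast] at h6
  have hdl0 : ∀ m ∈ J, coeff 0 (dl m G) = 1 := by
    intro m hm
    rw [coeff_dl (hJ0 m hm), if_pos (dvd_zero _), Nat.zero_div, coeff_zero_eq_constantCoeff_apply,
      hG]
  by_cases hs : s = 0
  · -- all exponents equal
    obtain ⟨r, hr0, hr1, hr2⟩ := exists_low hG hG1
    have hoE : ∀ m ∈ J, c m ≠ 0 → o m = E / 24 := by
      intro m hm hne
      have h1 := hoz m hm hne
      rw [hs, mul_zero, sub_zero] at h1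
      omega
    set c' : ZMod 2 := ∑ m : J, c m + c0 with hc'
    set t : Option J → AB.S := fun i => match i with
      | none => c' • (X : AB.S) ^ (E / 24)
      | some m => c m • (X ^ (E / 24) * (dl m G - 1)) with ht
    set o' : Option J → ℕ := fun i => match i with
      | none => E / 24
      | some m => E / 24 + m * r with ho'
    set T : Finset (Option J) := Finset.univ.filter fun i => t i ≠ 0 with hT
    have hsum : ∑ i ∈ T, t i = 0 := by
      rw [hT, Finset.sum_filter_ne_zero, Fintype.sum_option, ← h6, ht]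
      dsimp only
      have e1 : ∑ m : J, c m • (X ^ (E / 24) * (dl m G - 1) : AB.S) =
          ∑ m : J, (c m • (X ^ o m * dl m G) - c m • (X : AB.S) ^ (E / 24)) := by
        refine Finset.sum_congr rfl fun m _ => ?_
        by_cases hne : c m = 0
        · rw [hne, zero_smul, zero_smul, zero_smul, sub_zero]
        · rw [hoE m m.2 hne, ← smul_sub]
          congr 1
          ring
      rw [e1, Finset.sum_sub_distrib, ← Finset.sum_smul, hc', add_smul]
      ring
    have hlow : ∀ m ∈ J, ∀ n < m * r, coeff n (dl m G - 1) = 0 := by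
      intro m hm n hn
      rw [map_sub, coeff_dl (hJ0 m hm), coeff_one]
      by_cases h0 : n = 0
      · rw [h0, if_pos (dvd_zero _), if_pos rfl, Nat.zero_div, coeff_zero_eq_constantCoeff_apply,
          hG, sub_self]
      · rw [if_neg h0, sub_zero]
        split_ifs with hd
        · obtain ⟨q, rfl⟩ := hd
          have hmp : 0 < m := Nat.pos_of_ne_zero (hJ0 m hm)
          rw [Nat.mul_div_cancel_left _ hmp]
          apply hr2
          · rcases Nat.eq_zero_or_pos q with h | h
            · rw [h, mul_zero] at h0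
              exact absurd rfl h0
            · exact h
          · exact Nat.lt_of_mul_lt_mul_left hn
        · rfl
    have hTe := distinct_orders T t o' (by
      intro i hi j hj hij
      rcases i with _ | i <;> rcases j with _ | j
      · rfl
      · exfalso
        have h1 : E / 24 = E / 24 + (j : ℕ) * r := hij
        have h2 : 0 < (j : ℕ) * r := Nat.mul_pos (Nat.pos_of_ne_zero (hJ0 j j.2)) hr0
        omega
      · exfalso
        have h1 : E / 24 + (i : ℕ) * r = E / 24 := hij
        have h2 : 0 < (i : ℕ) * r := Nat.mul_pos (Nat.pos_of_ne_zero (hJ0 i i.2)) hr0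
        omega
      · have h1 : E / 24 + (i : ℕ) * r = E / 24 + (j : ℕ) * r := hij
        have h2 : (i : ℕ) * r = (j : ℕ) * r := by omega
        rw [Subtype.ext (Nat.eq_of_mul_eq_mul_right hr0 h2)]) (by
      intro i hi
      rw [hT, Finset.mem_filter] at hi
      rcases i with _ | i
      · change coeff (E / 24) (c' • (X : AB.S) ^ (E / 24)) ≠ 0
        have h1 : c' ≠ 0 := by
          intro h
          apply hi.2
          change c' • (X : AB.S) ^ (E / 24) = 0
          rw [h, zero_smul]
        rw [map_smul, coeff_X_pow, if_pos rfl, smul_eq_mul, mul_one]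
        exact h1
      · change coeff (E / 24 + (i : ℕ) * r) (c i • (X ^ (E / 24) * (dl i G - 1) : AB.S)) ≠ 0
        have h1 : c i ≠ 0 := by
          intro h
          apply hi.2
          change c i • (X ^ (E / 24) * (dl i G - 1) : AB.S) = 0
          rw [h, zero_smul]
        have hip : 0 < (i : ℕ) := Nat.pos_of_ne_zero (hJ0 i i.2)
        rw [map_smul, add_comm (E / 24), PowerSeries.coeff_X_pow_mul, map_sub,
          coeff_dl (hJ0 i i.2), if_pos (Dvd.intro _ rfl), Nat.mul_div_cancel_left _ hip, hr1,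
          coeff_one, if_neg (Nat.mul_pos hip hr0).ne', sub_zero, smul_eq_mul, mul_one]
        exact h1) (by
      intro i _ n hn
      rcases i with _ | i
      · change coeff n (c' • (X : AB.S) ^ (E / 24)) = 0
        have hn' : n < E / 24 := hn
        rw [map_smul, coeff_X_pow, if_neg hn'.ne, smul_zero]
      · change coeff n (c i • (X ^ (E / 24) * (dl i G - 1) : AB.S)) = 0
        have hn' : n < E / 24 + (i : ℕ) * r := hn
        rw [map_smul, PowerSeries.coeff_X_pow_mul']
        split_ifs with h1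
        · rw [hlow i i.2 _ (by omega), smul_zero]
        · rw [smul_zero]) hsum
    have h7 : (some ⟨m0, hm0⟩ : Option J) ∈ T := by
      rw [hT, Finset.mem_filter]
      refine ⟨Finset.mem_univ _, ?_⟩
      change c m0 • (X ^ (E / 24) * (dl m0 G - 1) : AB.S) ≠ 0
      intro h
      have h8 := congrArg (coeff (E / 24 + m0 * r)) h
      have hmp : 0 < m0 := Nat.pos_of_ne_zero (hJ0 m0 hm0)
      rw [map_smul, add_comm (E / 24), PowerSeries.coeff_X_pow_mul, map_sub,
        coeff_dl (hJ0 m0 hm0), if_pos (Dvd.intro _ rfl), Nat.mul_div_cancel_left _ hmp, hr1,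
        coeff_one, if_neg (Nat.mul_pos hmp hr0).ne', sub_zero, smul_eq_mul, mul_one,
        map_zero] at h8
      exact hcm h8
    rw [hTe] at h7
    exact absurd h7 (Finset.notMem_empty _)
  · -- distinct exponents
    set t : Option J → AB.S := fun i => match i with
      | none => c0 • (X : AB.S) ^ (E / 24)
      | some m => c m • (X ^ o m * dl m G) with ht
    set o' : Option J → ℕ := fun i => match i with
      | none => E / 24
      | some m => o m with ho'
    set T : Finset (Option J) := Finset.univ.filter fun i => t i ≠ 0 with hT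
    have hsum : ∑ i ∈ T, t i = 0 := by
      rw [hT, Finset.sum_filter_ne_zero, Fintype.sum_option, ← h6, ht]
      dsimp only
      ring
    have hcne : ∀ m : J, (some m : Option J) ∈ T → c m ≠ 0 := by
      intro m hm h
      rw [hT, Finset.mem_filter] at hm
      apply hm.2
      change c m • (X ^ o m * dl m G : AB.S) = 0
      rw [h, zero_smul]
    have hc0ne : (none : Option J) ∈ T → c0 ≠ 0 := by
      intro hm h
      rw [hT, Finset.mem_filter] at hm
      apply hm.2
      change c0 • (X : AB.S) ^ (E / 24) = 0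
      rw [h, zero_smul]
    have hTe := distinct_orders T t o' (by
      intro i hi j hj hij
      rcases i with _ | i <;> rcases j with _ | j
      · rfl
      · exfalso
        have h1 : E / 24 = o j := hij
        have h2 := hoz j j.2 (hcne j hj)
        have h3 := hoz0 (hc0ne hi)
        rw [← h1, h3] at h2
        have h4 : ((j : ℕ) : ℤ) * s = 0 := by linarith
        rcases mul_eq_zero.1 h4 with h5 | h5
        · exact hJ0 j j.2 (by exact_mod_cast h5)
        · exact hs h5
      · exfalso
        have h1 : o i = E / 24 := hij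
        have h2 := hoz i i.2 (hcne i hi)
        have h3 := hoz0 (hc0ne hj)
        rw [h1, h3] at h2
        have h4 : ((i : ℕ) : ℤ) * s = 0 := by linarith
        rcases mul_eq_zero.1 h4 with h5 | h5
        · exact hJ0 i i.2 (by exact_mod_cast h5)
        · exact hs h5
      · have h1 : o i = o j := hij
        have h2 := hoz i i.2 (hcne i hi)
        have h3 := hoz j j.2 (hcne j hj)
        rw [h1, h3] at h2
        have h4 : ((i : ℕ) : ℤ) * s = (j : ℕ) * s := by linarith
        have h5 : ((i : ℕ) : ℤ) = (j : ℕ) := mul_right_cancel₀ hs h4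
        have h5' : (i : ℕ) = (j : ℕ) := by exact_mod_cast h5
        rw [Subtype.ext h5']) (by
      intro i hi
      rcases i with _ | i
      · change coeff (E / 24) (c0 • (X : AB.S) ^ (E / 24)) ≠ 0
        rw [map_smul, coeff_X_pow, if_pos rfl, smul_eq_mul, mul_one]
        exact hc0ne hi
      · change coeff (o i) (c i • (X ^ o i * dl i G : AB.S)) ≠ 0
        have h1 := PowerSeries.coeff_X_pow_mul (dl i G) (o i) 0
        rw [zero_add] at h1
        rw [map_smul, h1, hdl0 i i.2, smul_eq_mul, mul_one]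
        exact hcne i hi) (by
      intro i _ n hn
      rcases i with _ | i
      · change coeff n (c0 • (X : AB.S) ^ (E / 24)) = 0
        have hn' : n < E / 24 := hn
        rw [map_smul, coeff_X_pow, if_neg hn'.ne, smul_zero]
      · change coeff n (c i • (X ^ o i * dl i G : AB.S)) = 0
        have hn' : n < o i := hn
        rw [map_smul, PowerSeries.coeff_X_pow_mul', if_neg (by omega), smul_zero]) hsum
    have h7 : (some ⟨m0, hm0⟩ : Option J) ∈ T := by
      rw [hT, Finset.mem_filter]
      refine ⟨Finset.mem_univ _, ?_⟩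
      change c m0 • (X ^ o m0 * dl m0 G : AB.S) ≠ 0
      intro h
      have h8 := congrArg (coeff (o m0)) h
      have h1 := PowerSeries.coeff_X_pow_mul (dl m0 G) (o m0) 0
      rw [zero_add] at h1
      rw [map_smul, h1, hdl0 m0 hm0, smul_eq_mul, mul_one, map_zero] at h8
      exact hcm h8
    rw [hTe] at h7
    exact absurd h7 (Finset.notMem_empty _)

/-- **the base case** -/
theorem good_base {G : AB.S} {s : ℤ} (hAZ : AZ (T5.jj G) s) (hG : constantCoeff G = 1)
    (hG1 : G ≠ 1) : Good G {1} := by
  classical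
  intro J hJ
  have hJ0 : ∀ m ∈ J, m ≠ 0 := fun m hm h => hJ (h ▸ hm)
  obtain ⟨C, hC⟩ := lf Pool.Agent.Y38.PT6.clo mtDb (fun m : J => dl m G) (by
    intro m
    apply T5.algOver_of_mem
    apply mem_of_az (s := m * s)
    rw [dl_eq_ex (hJ0 m m.2)]
    exact az_ex _ hAZ)
  refine ⟨C, fun h a v ha hne hv N hN => ?_⟩
  obtain ⟨b, hb, rfl⟩ := Pd_one hv
  have h1 : ∑ m ∈ J, pc (a m) * dl m G + pc b = ∑ m : J, io (a m) * dl m G + io b := by
    rw [← Finset.sum_coe_sort J]
    rfl
  refine hC h (fun m => a m) b (fun m => ha m m.2) hb ?_ N (by rw [← h1]; exact hN)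
  rw [← h1]
  intro h0
  obtain ⟨m, hm, hm0⟩ := hne
  exact hm0 (indep hAZ hG hG1 hJ a b h0 m hm)

end Pool.Agent.K7.H45.AB
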