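import Mathlib

set_option autoImplicit false

/-!
# A lemma of Siegel type over `k[X]`
-/

namespace Pool.Agent.K7.H45.AB

open Polynomial

/-- `n + 1` vectors in `k[X] ^ n` of degree `≤ D` satisfy a nontrivial relation with coefficients of
degree `≤ n D` -/
theorem siegel {k : Type} [Field k] (n D : ℕ) (w : Fin (n + 1) → Fin n → k[X])
    (hw : ∀ i l, (w i l).natDegree ≤ D) :
    ∃ lam : Fin (n + 1) → k[X], lam ≠ 0 ∧ (∀ i, (lam i).natDegree ≤ n * D) ∧
      ∀ l, ∑ i, lam i * w i l = 0 := by
  classical
  -- the unknowns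
  let φ : (Fin (n + 1) → degreeLT k (n * D + 1)) →ₗ[k] (Fin n → (Fin (n * D + D + 1) → k)) :=
    LinearMap.pi fun l => LinearMap.pi fun j =>
      (Polynomial.lcoeff k j).comp
        (∑ i, (LinearMap.mulRight k (w i l)).comp
          ((degreeLT k (n * D + 1)).subtype.comp (LinearMap.proj i)))
  have hφ : ∀ (x : Fin (n + 1) → degreeLT k (n * D + 1)) (l : Fin n) (j : Fin (n * D + D + 1)),
      φ x l j = (∑ i, (x i : k[X]) * w i l).coeff j := by
    intro x l j
    simp [φ]
  have h1 : Module.finrank k (degreeLT k (n * D + 1)) = n * D + 1 := by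
    rw [(degreeLTEquiv k (n * D + 1)).finrank_eq, Module.finrank_fin_fun]
  have : Module.Finite k (degreeLT k (n * D + 1)) :=
    Module.Finite.equiv (degreeLTEquiv k (n * D + 1)).symm
  have h2 : Module.finrank k (Fin (n + 1) → degreeLT k (n * D + 1)) = (n + 1) * (n * D + 1) := by
    rw [Module.finrank_pi_fintype]
    simp [h1]
  have h3 : Module.finrank k (Fin n → (Fin (n * D + D + 1) → k)) = n * (n * D + D + 1) := by
    rw [Module.finrank_pi_fintype]
    simp
  have h4 : Module.finrank k (Fin n → (Fin (n * D + D + 1) → k)) <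
      Module.finrank k (Fin (n + 1) → degreeLT k (n * D + 1)) := by
    rw [h2, h3]
    ring_nf
    omega
  have h5 := LinearMap.ker_ne_bot_of_finrank_lt (f := φ) h4
  obtain ⟨x, hx, hx0⟩ := (Submodule.ne_bot_iff _).1 h5
  refine ⟨fun i => (x i : k[X]), ?_, ?_, ?_⟩
  · intro h
    apply hx0
    funext i
    apply Subtype.ext
    exact congrFun h i
  · intro i
    have h6 := (mem_degreeLT.1 (x i).2)
    have h7 : ((x i : k[X])).degree ≤ ((n * D : ℕ) : WithBot ℕ) := by
      by_cases h0 : (x i : k[X]) = 0
      · rw [h0, degree_zero]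
        exact bot_le
      · rw [degree_eq_natDegree h0] at h6 ⊢
        exact_mod_cast Nat.lt_succ_iff.1 (by exact_mod_cast h6)
    exact natDegree_le_of_degree_le h7
  · intro l
    have hdeg : (∑ i, (x i : k[X]) * w i l).natDegree ≤ n * D + D := by
      refine natDegree_sum_le_of_forall_le _ _ fun i _ => ?_
      refine natDegree_mul_le.trans (Nat.add_le_add ?_ (hw i l))
      have h6 := (mem_degreeLT.1 (x i).2)
      by_cases h0 : (x i : k[X]) = 0
      · rw [h0, natDegree_zero]
        exact Nat.zero_le _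
      · rw [degree_eq_natDegree h0] at h6
        exact Nat.lt_succ_iff.1 (by exact_mod_cast h6)
    ext j
    rw [coeff_zero]
    by_cases hj : j < n * D + D + 1
    · have h8 := congrFun (congrFun (LinearMap.mem_ker.1 hx) l) ⟨j, hj⟩
      rw [hφ] at h8
      exact h8
    · exact coeff_eq_zero_of_natDegree_lt (hdeg.trans_lt (by omega))

end Pool.Agent.K7.H45.AB
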