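import Pool.Agent.K7.H45.AB.Pd
import Pool.Agent.K7.H45.AB.Siegel

set_option autoImplicit false

/-!
# Mahler's elimination: removing Mahler functions of a base from a linear form
-/

namespace Pool.Agent.K7.H45.AB

open PowerSeries

/-- linear forms in the dilates of `G` and the elements of `𝒱` -/
def Good (G : S) (𝒱 : Set S) : Prop :=
  ∀ J : Finset ℕ, 0 ∉ J → ∃ C : ℕ, ∀ (h : ℕ) (a : ℕ → F) (v : S),
    (∀ m ∈ J, (a m).natDegree ≤ h) → (∃ m ∈ J, a m ≠ 0) → v ∈ Pd h 𝒱 →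
    ∀ N, (X : S) ^ N ∣ ∑ m ∈ J, pc (a m) * dl m G + v → N ≤ C * (h + 1)

/-- finite Mahler systems of base `b` -/
def Mah (b : ℕ) (𝒰 : Set S) : Prop :=
  𝒰.Finite ∧ ∀ U ∈ 𝒰, ∃ p : F, p ≠ 0 ∧ ∃ h, pc p * U ∈ Pd h (dl b '' 𝒰)

theorem image_dl_dl {a b : ℕ} (ha : a ≠ 0) (hb : b ≠ 0) (𝒱 : Set S) :
    dl a '' (dl b '' 𝒱) = dl (a * b) '' 𝒱 := by
  rw [Set.image_image]
  simp only [dl_dl ha hb]

theorem mah_uniform {𝒰 𝒲 : Set S} (hf : 𝒰.Finite)
    (h : ∀ U ∈ 𝒰, ∃ p : F, p ≠ 0 ∧ ∃ h, pc p * U ∈ Pd h 𝒲) :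
    ∃ p : F, p ≠ 0 ∧ ∃ h, ∀ U ∈ 𝒰, pc p * U ∈ Pd h 𝒲 := by
  classical
  choose! p hp0 d hd using h
  set T := hf.toFinset with hT
  have hTm : ∀ U, U ∈ T ↔ U ∈ 𝒰 := fun U => hf.mem_toFinset
  refine ⟨∏ U ∈ T, p U, Finset.prod_ne_zero_iff.2 fun U hU => hp0 U ((hTm U).1 hU),
    ∑ U ∈ T, ((∏ V ∈ T.erase U, p V).natDegree + d U), fun U hU => ?_⟩
  have hUT := (hTm U).2 hU
  rw [← Finset.prod_erase_mul T p hUT, map_mul, mul_assoc]
  refine Pd_mono ?_ (le_refl 𝒲) (Pd_mul (hd U hU) le_rfl)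
  exact Finset.single_le_sum
    (f := fun U => (∏ V ∈ T.erase U, p V).natDegree + d U) (fun _ _ => Nat.zero_le _) hUT

theorem Pd_trans_mul {h h' : ℕ} {𝒱 𝒲 : Set S} {v : S} {p : F} (hv : v ∈ Pd h 𝒱)
    (hVW : ∀ V ∈ 𝒱, pc p * V ∈ Pd h' 𝒲) : pc p * v ∈ Pd (h + h') 𝒲 := by
  induction hv using Submodule.span_induction with
  | mem w hw =>
    obtain ⟨q, hq, V, hV, rfl⟩ := hw
    rw [mul_left_comm]
    exact Pd_mul (hVW V hV) hq
  | zero => rw [mul_zero]; exact Submodule.zero_mem _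
  | add x y _ _ hx hy => rw [mul_add]; exact Submodule.add_mem _ hx hy
  | smul a x _ hx => rw [mul_smul_comm]; exact Submodule.smul_mem _ _ hx

theorem expand_ne_zero {d : ℕ} (hd : d ≠ 0) {p : F} (hp : p ≠ 0) :
    Polynomial.expand (ZMod 2) d p ≠ 0 :=
  (Polynomial.expand_ne_zero (Nat.pos_of_ne_zero hd)).2 hp

theorem mah_iter {b : ℕ} (hb : b ≠ 0) {𝒰 : Set S} (hM : Mah b 𝒰) (i : ℕ) :
    ∃ P : F, P ≠ 0 ∧ ∃ h, ∀ U ∈ 𝒰, pc P * U ∈ Pd h (dl (b ^ i) '' 𝒰) := by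
  obtain ⟨p, hp0, h0, hp⟩ := mah_uniform hM.1 hM.2
  induction i with
  | zero =>
    refine ⟨1, one_ne_zero, 0, fun U hU => ?_⟩
    rw [map_one, one_mul]
    apply Pd_self
    exact ⟨U, hU, by rw [pow_zero, dl_one]⟩
  | succ i ih =>
    obtain ⟨P, hP0, h1, hP⟩ := ih
    have hbi : b ^ i ≠ 0 := pow_ne_zero _ hb
    refine ⟨Polynomial.expand (ZMod 2) (b ^ i) p * P, mul_ne_zero (expand_ne_zero hbi hp0) hP0,
      h1 + b ^ i * h0, fun U hU => ?_⟩
    rw [map_mul, mul_assoc]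
    refine Pd_trans_mul (hP U hU) ?_
    rintro _ ⟨V, hV, rfl⟩
    rw [← dl_pc hbi, ← map_mul, pow_succ, ← image_dl_dl hbi hb]
    exact Pd_dl hbi (hp V hV)

/-- **elimination of Mahler functions of base `b`** -/
theorem elim {G : S} {b : ℕ} (hb : 2 ≤ b) {𝒱 𝒰 : Set S} (hM : Mah b 𝒰)
    (hG : ∀ n, Good G (⋃ k ∈ Finset.range (n + 1), dl (b ^ k) '' 𝒱)) : Good G (𝒱 ∪ 𝒰) := by
  classical
  have hb0 : b ≠ 0 := by omega
  have hbk : ∀ k, b ^ k ≠ 0 := fun k => pow_ne_zero _ hb0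
  obtain ⟨n, Uf, -, hUf⟩ := hM.1.fin_param
  -- the transfer to `dl (b ^ n) '' 𝒰`
  have htr : ∀ k : Fin (n + 1), ∃ P : F, P ≠ 0 ∧ ∃ h, ∀ U ∈ 𝒰,
      pc P * dl (b ^ (k : ℕ)) U ∈ Pd h (dl (b ^ n) '' 𝒰) := by
    intro k
    obtain ⟨P, hP0, h0, hP⟩ := mah_iter hb0 hM (n - k)
    refine ⟨Polynomial.expand (ZMod 2) (b ^ (k : ℕ)) P, expand_ne_zero (hbk _) hP0,
      b ^ (k : ℕ) * h0, fun U hU => ?_⟩
    have h1 := Pd_dl (hbk k) (hP U hU)
    rw [map_mul, dl_pc (hbk k), image_dl_dl (hbk _) (hbk _), ← pow_add] at h1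
    have h2 : (k : ℕ) + (n - k) = n := by have := k.2; omega
    rw [h2] at h1
    exact h1
  choose P hP0 d0 hP using htr
  set D0 : ℕ := ∑ k, (d0 k + (P k).natDegree) with hD0
  have hD0k : ∀ k, d0 k + (P k).natDegree ≤ D0 := fun k =>
    Finset.single_le_sum (f := fun k => d0 k + (P k).natDegree) (fun _ _ => Nat.zero_le _)
      (Finset.mem_univ k)
  intro J hJ
  set T : Finset (Fin (n + 1) × ℕ) := Finset.univ ×ˢ J with hT
  set J' : Finset ℕ := T.image (fun x => b ^ (x.1 : ℕ) * x.2) with hJ'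
  have hJ'0 : 0 ∉ J' := by
    intro h0
    rw [hJ', Finset.mem_image] at h0
    obtain ⟨x, hx, hx0⟩ := h0
    rw [hT, Finset.mem_product] at hx
    rcases mul_eq_zero.1 hx0 with h | h
    · exact hbk _ h
    · exact hJ (h ▸ hx.2)
  obtain ⟨C, hC⟩ := hG n J' hJ'0
  refine ⟨C * ((n + 1) * (b ^ n + D0) + 1), fun h a v ha hne hv N hN => ?_⟩
  obtain ⟨v1, hv1, v2, hv2, rfl⟩ := Pd_union hv
  set D1 : ℕ := b ^ n * h + D0 with hD1
  have hbkn : ∀ k : Fin (n + 1), b ^ (k : ℕ) * h ≤ b ^ n * h := fun k =>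
    Nat.mul_le_mul_right _ (Nat.pow_le_pow_right (by omega) (by have := k.2; omega))
  -- coordinates
  have hw : ∀ k : Fin (n + 1), ∃ c : Fin n → F, (∀ l, (c l).natDegree ≤ D1) ∧
      pc (P k) * dl (b ^ (k : ℕ)) v2 = ∑ l, pc (c l) * dl (b ^ n) (Uf l) := by
    intro k
    apply Pd_range
    have h1 := Pd_trans_mul (p := P k) (Pd_dl (hbk k) hv2) (𝒲 := dl (b ^ n) '' 𝒰) (h' := d0 k) (by
      rintro _ ⟨V, hV, rfl⟩
      exact hP k V hV)
    have h2 : Set.range (fun l => dl (b ^ n) (Uf l)) = dl (b ^ n) '' 𝒰 := by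
      rw [← hUf, ← Set.range_comp]
      rfl
    rw [h2]
    refine Pd_mono ?_ (le_refl _) h1
    have := hbkn k
    have := hD0k k
    omega
  choose w hwd hw using hw
  obtain ⟨lam, hlam0, hlamd, hlam⟩ := siegel n D1 w hwd
  set q : Fin (n + 1) → F := fun k => lam k * P k with hq
  have hqd : ∀ k, (q k).natDegree ≤ n * D1 + D0 := by
    intro k
    refine Polynomial.natDegree_mul_le.trans (Nat.add_le_add (hlamd k) ?_)
    have := hD0k k
    omega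
  -- the new form
  set L : S := ∑ m ∈ J, pc (a m) * dl m G + (v1 + v2) with hL
  set v' : S := ∑ k, pc (q k) * dl (b ^ (k : ℕ)) v1 with hv'
  set a' : ℕ → F := fun m' => ∑ x ∈ T with b ^ (x.1 : ℕ) * x.2 = m',
    q x.1 * Polynomial.expand (ZMod 2) (b ^ (x.1 : ℕ)) (a x.2) with ha'
  set H : ℕ := n * D1 + D0 + b ^ n * h with hH
  have hform : ∑ k, pc (q k) * dl (b ^ (k : ℕ)) L = ∑ m' ∈ J', pc (a' m') * dl m' G + v' := by
    have e1 : ∀ k : Fin (n + 1), pc (q k) * dl (b ^ (k : ℕ)) L =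
        ∑ m ∈ J, pc (q k * Polynomial.expand (ZMod 2) (b ^ (k : ℕ)) (a m)) *
          dl (b ^ (k : ℕ) * m) G + pc (q k) * dl (b ^ (k : ℕ)) v1 +
          pc (lam k) * (pc (P k) * dl (b ^ (k : ℕ)) v2) := by
      intro k
      rw [hL, map_add, map_add, mul_add, mul_add, map_sum, Finset.mul_sum, add_assoc]
      congr 1
      · refine Finset.sum_congr rfl fun m hm => ?_
        have hm0 : m ≠ 0 := fun h => hJ (h ▸ hm)
        rw [map_mul (dl _), dl_pc (hbk k), dl_dl (hbk k) hm0, map_mul pc (q k), mul_assoc]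
      · congr 1
        rw [hq]
        dsimp only
        rw [map_mul, mul_assoc]
    rw [Finset.sum_congr rfl fun k _ => e1 k, Finset.sum_add_distrib, Finset.sum_add_distrib]
    have e2 : ∑ k, pc (lam k) * (pc (P k) * dl (b ^ (k : ℕ)) v2) = 0 := by
      rw [Finset.sum_congr rfl fun k _ => by rw [hw k, Finset.mul_sum], Finset.sum_comm]
      refine Finset.sum_eq_zero fun l _ => ?_
      have e3 : ∑ k, pc (lam k) * (pc (w k l) * dl (b ^ n) (Uf l)) =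
          pc (∑ k, lam k * w k l) * dl (b ^ n) (Uf l) := by
        rw [map_sum, Finset.sum_mul]
        refine Finset.sum_congr rfl fun k _ => ?_
        rw [map_mul, mul_assoc]
      rw [e3, hlam l, map_zero, zero_mul]
    rw [e2, add_zero]
    congr 1
    rw [← Finset.sum_product' (s := Finset.univ) (t := J) (f := fun (k : Fin (n + 1)) m =>
      pc (q k * Polynomial.expand (ZMod 2) (b ^ (k : ℕ)) (a m)) * dl (b ^ (k : ℕ) * m) G), ← hT,
      ← Finset.sum_fiberwise_of_maps_to (s := T) (t := J')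
        (g := fun x : Fin (n + 1) × ℕ => b ^ (x.1 : ℕ) * x.2)
        (fun x hx => Finset.mem_image_of_mem _ hx)]
    refine Finset.sum_congr rfl fun m' _ => ?_
    rw [ha']
    dsimp only
    rw [map_sum, Finset.sum_mul]
    refine Finset.sum_congr rfl fun x hx => ?_
    rw [(Finset.mem_filter.1 hx).2]
  have ha'd : ∀ m' ∈ J', (a' m').natDegree ≤ H := by
    intro m' _
    refine Polynomial.natDegree_sum_le_of_forall_le _ _ fun x hx => ?_
    have hxJ : x.2 ∈ J := (Finset.mem_product.1 (Finset.mem_filter.1 hx).1).2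
    refine Polynomial.natDegree_mul_le.trans (Nat.add_le_add (hqd x.1) ?_)
    rw [Polynomial.natDegree_expand, mul_comm]
    exact (Nat.mul_le_mul_left _ (ha x.2 hxJ)).trans (hbkn x.1)
  have hv'm : v' ∈ Pd H (⋃ k ∈ Finset.range (n + 1), dl (b ^ k) '' 𝒱) := by
    refine Submodule.sum_mem _ fun k _ => ?_
    refine Pd_mono ?_ ?_ (Pd_mul (Pd_dl (hbk k) hv1) (hqd k))
    · have := hbkn k
      omega
    · exact Set.subset_biUnion_of_mem (u := fun k => dl (b ^ k) '' 𝒱)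
        (Finset.mem_coe.2 (Finset.mem_range.2 k.2))
  have hne' : ∃ m' ∈ J', a' m' ≠ 0 := by
    have hq0 : ∃ k, q k ≠ 0 := by
      obtain ⟨k, hk⟩ := Function.ne_iff.1 hlam0
      exact ⟨k, mul_ne_zero hk (hP0 k)⟩
    obtain ⟨k, hk, hkmax⟩ := Finset.exists_max_image (Finset.univ.filter fun k => q k ≠ 0)
      (fun k => (k : ℕ)) (by
        obtain ⟨k, hk⟩ := hq0
        exact ⟨k, by simpa using hk⟩)
    obtain ⟨m, hm, hmmax⟩ := Finset.exists_max_image (J.filter fun m => a m ≠ 0)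
      (fun m => m) (by
        obtain ⟨m, hm, hm0⟩ := hne
        exact ⟨m, Finset.mem_filter.2 ⟨hm, hm0⟩⟩)
    have hk' : q k ≠ 0 := (Finset.mem_filter.1 hk).2
    obtain ⟨hmJ, hm'⟩ := Finset.mem_filter.1 hm
    have hm0 : 0 < m := Nat.pos_of_ne_zero fun h => hJ (h ▸ hmJ)
    refine ⟨b ^ (k : ℕ) * m, Finset.mem_image.2 ⟨(k, m), Finset.mem_product.2
      ⟨Finset.mem_univ _, hmJ⟩, rfl⟩, ?_⟩
    rw [ha']
    dsimp only
    rw [Finset.sum_eq_single (k, m)]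
    · exact mul_ne_zero hk' (expand_ne_zero (hbk _) hm')
    · intro x hx hxne
      obtain ⟨hxT, hxe⟩ := Finset.mem_filter.1 hx
      by_contra hcon
      have h1 : q x.1 ≠ 0 := fun h => hcon (by rw [h, zero_mul])
      have h2 : a x.2 ≠ 0 := fun h => hcon (by rw [h, map_zero, mul_zero])
      have h3 : (x.1 : ℕ) ≤ k := hkmax x.1 (Finset.mem_filter.2 ⟨Finset.mem_univ _, h1⟩)
      have h4 : x.2 ≤ m := hmmax x.2 (Finset.mem_filter.2 ⟨(Finset.mem_product.1 hxT).2, h2⟩)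
      rcases h3.lt_or_eq with h5 | h5
      · have h6 : b ^ (x.1 : ℕ) < b ^ (k : ℕ) := Nat.pow_lt_pow_right (by omega) h5
        have h7 : b ^ (x.1 : ℕ) * x.2 < b ^ (k : ℕ) * m := by
          calc b ^ (x.1 : ℕ) * x.2 ≤ b ^ (x.1 : ℕ) * m := Nat.mul_le_mul_left _ h4
            _ < b ^ (k : ℕ) * m := Nat.mul_lt_mul_of_pos_right h6 hm0
        omega
      · apply hxne
        have h8 : x.1 = k := Fin.ext h5
        refine Prod.ext h8 ?_
        rw [h8] at hxe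
        exact Nat.eq_of_mul_eq_mul_left (Nat.pos_of_ne_zero (hbk _)) hxe
    · intro h
      exfalso
      apply h
      rw [Finset.mem_filter, hT, Finset.mem_product]
      exact ⟨⟨Finset.mem_univ _, hmJ⟩, rfl⟩
  have hdvd : (X : S) ^ N ∣ ∑ m' ∈ J', pc (a' m') * dl m' G + v' := by
    rw [← hform]
    exact Finset.dvd_sum fun k _ => Dvd.dvd.mul_left (dvd_dl (hbk k) hN) _
  refine (hC H a' v' ha'd hne' hv'm N hdvd).trans ?_
  rw [mul_assoc]
  refine Nat.mul_le_mul_left _ ?_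
  have e5 : ((n + 1) * (b ^ n + D0) + 1) * (h + 1) = H + 1 + ((n + 1) * (b ^ n + D0 * h) + h) := by
    rw [hH, hD1]
    ring
  rw [e5]
  exact Nat.le_add_right _ _

end Pool.Agent.K7.H45.AB
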