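import Pool.Agent.K7.H45.AB.Base
import Pool.Agent.K7.H45.AB.Auto

set_option autoImplicit false

/-!
# Parity of the coefficients of an eta-quotient against Mahler functions and automata of all bases
-/

namespace Pool.Agent.K7.H45.AB

open PowerSeries Pool.Agent.TH693.QQ

theorem Sys.one : ∀ (bs : List ℕ), Sys bs {1}
  | [] => le_refl _
  | _ :: bs => ⟨{1}, ∅, (Set.union_empty _).symm,
      ⟨Set.finite_empty, fun _ h => absurd h (Set.notMem_empty _)⟩, Sys.one bs⟩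

theorem Sys.finUnion {ι : Type} {bs : List ℕ} (T : Finset ι) (f : ι → Set AB.S)
    (hf : ∀ k ∈ T, Sys bs (f k)) : Sys bs (⋃ k ∈ T, f k) := by
  classical
  induction T using Finset.induction_on with
  | empty => simpa using Sys.empty bs
  | insert i T hi ih =>
    rw [Finset.set_biUnion_insert]
    exact (hf i (Finset.mem_insert_self _ _)).union
      (ih fun k hk => hf k (Finset.mem_insert_of_mem hk))

theorem main {G : AB.S} {s : ℤ} (hAZ : Pool.Agent.Y627.PT.AZ (T5.jj G) s)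
    (hG : constantCoeff G = 1) (hG1 : G ≠ 1) (Q k : ℕ) (g : Fin k → AB.S) (b : Fin k → ℕ)
    (hb : ∀ z, 2 ≤ b z) (hg : ∀ z, IsMahler (b z) (g z)) :
    ∃ C : ℕ, ∀ (K : ℕ) (c : ℕ → ZMod 2) (e : Fin k → ℕ → ZMod 2), (∃ i < K, c i ≠ 0) →
      ∀ (L : ℕ) (u : Fin L → ℕ → ZMod 2) (τ : Fin L → ℕ),
        (∀ l, ∃ β, 2 ≤ β ∧ β ≤ Q ∧ Aut Q β (u l)) → (∀ l, τ l < K) →
      ∀ (κ : ZMod 2) (A : ℕ), ∃ n, A ≤ n ∧ n ≤ C * (A + K) ∧
        ∑ i ∈ Finset.range K, c i * coeff (n + i) G +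
          (∑ z, ∑ i ∈ Finset.range K, e z i * coeff (n + i) (g z) + ∑ l, u l (n + τ l)) = κ := by
  classical
  choose 𝒰 h𝒰M h𝒰g h𝒰1 using fun z => mah_of_isMahler (b := b z) (by have := hb z; omega) (hg z)
  set 𝒱 : Set AB.S := ((⋃ z ∈ (Finset.univ : Finset (Fin k)), 𝒰 z) ∪
    (⋃ β ∈ Finset.Icc 2 Q, AutSet Q β)) ∪ {1} with h𝒱
  set bs : List ℕ := (Finset.Icc 2 Q).toList ++ List.ofFn b with hbs
  have hbs2 : ∀ β ∈ bs, 2 ≤ β := by
    intro β hβ
    rw [hbs, List.mem_append] at hβ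
    rcases hβ with h | h
    · rw [Finset.mem_toList, Finset.mem_Icc] at h
      exact h.1
    · rw [List.mem_ofFn] at h
      obtain ⟨z, rfl⟩ := h
      exact hb z
  have hsys : Sys bs 𝒱 := by
    refine ((Sys.finUnion _ _ fun z _ => ?_).union (Sys.finUnion _ _ fun β hβ => ?_)).union
      (Sys.one bs)
    · refine sys_single (h𝒰M z) ?_
      rw [hbs, List.mem_append, List.mem_ofFn]
      exact Or.inr ⟨z, rfl⟩
    · refine sys_single (mah_autSet Q (Finset.mem_Icc.1 hβ).1) ?_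
      rw [hbs, List.mem_append, Finset.mem_toList]
      exact Or.inl hβ
  obtain ⟨C, hC⟩ := pat (good_of_sys (good_base hAZ hG hG1) hbs2 hsys) (Or.inr rfl)
  refine ⟨C, fun K c e hc L u τ hu hτ κ A => ?_⟩
  refine hC K c (fun n => ∑ z, ∑ i ∈ Finset.range K, e z i * coeff (n + i) (g z) +
    ∑ l, u l (n + τ l)) hc ?_ κ A
  have h1 : (fun n => ∑ z, ∑ i ∈ Finset.range K, e z i * coeff (n + i) (g z) +
      ∑ l, u l (n + τ l)) =
      ∑ z, ∑ i ∈ Finset.range K, (e z i) • (fun n => coeff (n + i) (g z)) +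
        ∑ l, fun n => u l (n + τ l) := by
    funext n
    simp only [Pi.add_apply, Finset.sum_apply, Pi.smul_apply, smul_eq_mul]
  rw [h1]
  refine Submodule.add_mem _ (Submodule.sum_mem _ fun z _ => Submodule.sum_mem _ fun i hi =>
    Submodule.smul_mem _ _ (Submodule.subset_span ⟨g z, ?_, i, Finset.mem_range.1 hi, rfl⟩))
    (Submodule.sum_mem _ fun l _ => ?_)
  · exact Or.inl (Or.inl (Set.mem_biUnion (Finset.mem_coe.2 (Finset.mem_univ z)) (h𝒰g z)))
  · obtain ⟨β, hβ2, hβQ, hβ⟩ := hu l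
    refine Submodule.subset_span ⟨PowerSeries.mk (u l), ?_, τ l, hτ l, ?_⟩
    · refine Or.inl (Or.inr (Set.mem_biUnion (Finset.mem_coe.2 (Finset.mem_Icc.2 ⟨hβ2, hβQ⟩)) ?_))
      exact Or.inr ⟨u l, hβ, rfl⟩
    · funext n
      rw [coeff_mk]

end Pool.Agent.K7.H45.AB
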