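import Mathlib

set_option autoImplicit false

/-!
# Series with polynomial coefficients of bounded degree, dilations
-/

namespace Pool.Agent.K7.H45.AB

open PowerSeries

abbrev S := PowerSeries (ZMod 2)
abbrev F := Polynomial (ZMod 2)

/-- polynomials as power series -/
noncomputable def pc : F →+* S := Polynomial.coeToPowerSeries.ringHom

theorem pc_apply (p : F) : pc p = (p : S) := rfl

theorem pc_X : pc Polynomial.X = X := Polynomial.coe_X

theorem pc_C (a : ZMod 2) : pc (Polynomial.C a) = algebraMap (ZMod 2) S a := by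
  rw [pc_apply, Polynomial.coe_C]
  rfl

theorem pc_inj : Function.Injective pc := Polynomial.coe_injective _

theorem pc_eq_zero {p : F} : pc p = 0 ↔ p = 0 := by
  rw [← map_zero pc]
  exact pc_inj.eq_iff

theorem coeff_pc (p : F) (n : ℕ) : coeff n (pc p) = p.coeff n := Polynomial.coeff_coe p n

/-- `g(X) ↦ g(X ^ d)` (the identity for `d = 0`) -/
noncomputable def dl (d : ℕ) : S →ₐ[ZMod 2] S :=
  if h : d = 0 then AlgHom.id _ _ else PowerSeries.expand d h

theorem dl_of_ne {d : ℕ} (h : d ≠ 0) : dl d = PowerSeries.expand d h := by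
  unfold dl
  rw [dif_neg h]

theorem coeff_dl {d : ℕ} (h : d ≠ 0) (g : S) (n : ℕ) :
    coeff n (dl d g) = if d ∣ n then coeff (n / d) g else 0 := by
  rw [dl_of_ne h, PowerSeries.coeff_expand]

theorem dl_dl {a b : ℕ} (ha : a ≠ 0) (hb : b ≠ 0) (g : S) : dl a (dl b g) = dl (a * b) g := by
  rw [dl_of_ne ha, dl_of_ne hb, dl_of_ne (mul_ne_zero ha hb)]
  exact (PowerSeries.expand_mul (p := a) ha b hb g).symm

theorem dl_one (g : S) : dl 1 g = g := by
  rw [dl_of_ne one_ne_zero, PowerSeries.expand_one_apply]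

theorem dl_X {d : ℕ} (h : d ≠ 0) : dl d X = X ^ d := by
  rw [dl_of_ne h, PowerSeries.expand_X]

theorem dl_pc {d : ℕ} (h : d ≠ 0) (p : F) : dl d (pc p) = pc (Polynomial.expand (ZMod 2) d p) := by
  induction p using Polynomial.induction_on with
  | C a => rw [Polynomial.expand_C, pc_C, AlgHom.commutes]
  | add p q hp hq => rw [map_add, map_add, map_add, map_add, hp, hq]
  | monomial n a _ =>
    simp only [map_mul, map_pow, pc_X, pc_C, dl_X h, Polynomial.expand_C, Polynomial.expand_X,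
      AlgHom.commutes]

theorem dvd_dl {d : ℕ} (h : d ≠ 0) {N : ℕ} {g : S} (hg : (X : S) ^ N ∣ g) :
    (X : S) ^ N ∣ dl d g := by
  obtain ⟨w, rfl⟩ := hg
  rw [map_mul, map_pow, dl_X h, ← pow_mul]
  have h1 : N ≤ d * N := Nat.le_mul_of_pos_left _ (Nat.pos_of_ne_zero h)
  exact Dvd.dvd.mul_right (pow_dvd_pow _ h1) _

/-- combinations of the elements of `𝒱` with polynomial coefficients of degree `≤ h` -/
noncomputable def Pd (h : ℕ) (𝒱 : Set S) : Submodule (ZMod 2) S :=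
  Submodule.span (ZMod 2) {w | ∃ p : F, p.natDegree ≤ h ∧ ∃ V ∈ 𝒱, w = pc p * V}

theorem Pd_mem {h : ℕ} {𝒱 : Set S} {p : F} (hp : p.natDegree ≤ h) {V : S} (hV : V ∈ 𝒱) :
    pc p * V ∈ Pd h 𝒱 := Submodule.subset_span ⟨p, hp, V, hV, rfl⟩

theorem Pd_mono {h h' : ℕ} {𝒱 𝒱' : Set S} (h1 : h ≤ h') (h2 : 𝒱 ⊆ 𝒱') : Pd h 𝒱 ≤ Pd h' 𝒱' := by
  apply Submodule.span_mono
  rintro w ⟨p, hp, V, hV, rfl⟩
  exact ⟨p, hp.trans h1, V, h2 hV, rfl⟩

theorem Pd_self {h : ℕ} {𝒱 : Set S} {V : S} (hV : V ∈ 𝒱) : V ∈ Pd h 𝒱 := by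
  have := Pd_mem (h := h) (p := 1) (by simp) hV
  rwa [map_one, one_mul] at this

theorem Pd_dl {d : ℕ} (hd : d ≠ 0) {h : ℕ} {𝒱 : Set S} {v : S} (hv : v ∈ Pd h 𝒱) :
    dl d v ∈ Pd (d * h) (dl d '' 𝒱) := by
  induction hv using Submodule.span_induction with
  | mem w hw =>
    obtain ⟨p, hp, V, hV, rfl⟩ := hw
    rw [map_mul, dl_pc hd]
    refine Pd_mem ?_ ⟨V, hV, rfl⟩
    rw [Polynomial.natDegree_expand, mul_comm]
    exact Nat.mul_le_mul_left _ hp
  | zero => rw [map_zero]; exact Submodule.zero_mem _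
  | add x y _ _ hx hy => rw [map_add]; exact Submodule.add_mem _ hx hy
  | smul a x _ hx => rw [map_smul]; exact Submodule.smul_mem _ _ hx

theorem Pd_mul {h D : ℕ} {𝒱 : Set S} {v : S} (hv : v ∈ Pd h 𝒱) {p : F} (hp : p.natDegree ≤ D) :
    pc p * v ∈ Pd (D + h) 𝒱 := by
  induction hv using Submodule.span_induction with
  | mem w hw =>
    obtain ⟨q, hq, V, hV, rfl⟩ := hw
    rw [← mul_assoc, ← map_mul]
    exact Pd_mem (Polynomial.natDegree_mul_le.trans (Nat.add_le_add hp hq)) hV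
  | zero => rw [mul_zero]; exact Submodule.zero_mem _
  | add x y _ _ hx hy => rw [mul_add]; exact Submodule.add_mem _ hx hy
  | smul a x _ hx => rw [mul_smul_comm]; exact Submodule.smul_mem _ _ hx

theorem Pd_trans {h h' : ℕ} {𝒱 𝒲 : Set S} {v : S} (hv : v ∈ Pd h 𝒱)
    (hVW : ∀ V ∈ 𝒱, V ∈ Pd h' 𝒲) : v ∈ Pd (h + h') 𝒲 := by
  induction hv using Submodule.span_induction with
  | mem w hw =>
    obtain ⟨q, hq, V, hV, rfl⟩ := hw
    exact Pd_mul (hVW V hV) hq
  | zero => exact Submodule.zero_mem _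
  | add x y _ _ hx hy => exact Submodule.add_mem _ hx hy
  | smul a x _ hx => exact Submodule.smul_mem _ _ hx

theorem Pd_union {h : ℕ} {𝒱 𝒲 : Set S} {v : S} (hv : v ∈ Pd h (𝒱 ∪ 𝒲)) :
    ∃ v1 ∈ Pd h 𝒱, ∃ v2 ∈ Pd h 𝒲, v = v1 + v2 := by
  induction hv using Submodule.span_induction with
  | mem w hw =>
    obtain ⟨q, hq, V, hV, rfl⟩ := hw
    rcases hV with hV | hV
    · exact ⟨_, Pd_mem hq hV, 0, Submodule.zero_mem _, (add_zero _).symm⟩
    · exact ⟨0, Submodule.zero_mem _, _, Pd_mem hq hV, (zero_add _).symm⟩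
  | zero => exact ⟨0, Submodule.zero_mem _, 0, Submodule.zero_mem _, (add_zero _).symm⟩
  | add x y _ _ hx hy =>
    obtain ⟨v1, h1, v2, h2, rfl⟩ := hx
    obtain ⟨w1, g1, w2, g2, rfl⟩ := hy
    exact ⟨_, Submodule.add_mem _ h1 g1, _, Submodule.add_mem _ h2 g2, by ring⟩
  | smul a x _ hx =>
    obtain ⟨v1, h1, v2, h2, rfl⟩ := hx
    exact ⟨_, Submodule.smul_mem _ a h1, _, Submodule.smul_mem _ a h2, smul_add _ _ _⟩

theorem Pd_range {h n : ℕ} {W : Fin n → S} {v : S} (hv : v ∈ Pd h (Set.range W)) :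
    ∃ c : Fin n → F, (∀ l, (c l).natDegree ≤ h) ∧ v = ∑ l, pc (c l) * W l := by
  classical
  induction hv using Submodule.span_induction with
  | mem w hw =>
    obtain ⟨q, hq, V, ⟨l0, rfl⟩, rfl⟩ := hw
    refine ⟨fun l => if l = l0 then q else 0, fun l => ?_, ?_⟩
    · dsimp only
      split_ifs
      · exact hq
      · simp
    · rw [Finset.sum_eq_single l0]
      · dsimp only
        rw [if_pos rfl]
      · intro l _ hl
        dsimp only
        rw [if_neg hl, map_zero, zero_mul]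
      · intro h1
        exact absurd (Finset.mem_univ _) h1
  | zero => exact ⟨fun _ => 0, fun l => by simp, by simp⟩
  | add x y _ _ hx hy =>
    obtain ⟨c, hc, rfl⟩ := hx
    obtain ⟨c', hc', rfl⟩ := hy
    refine ⟨fun l => c l + c' l, fun l => ?_, ?_⟩
    · exact (Polynomial.natDegree_add_le _ _).trans (max_le (hc l) (hc' l))
    · rw [← Finset.sum_add_distrib]
      refine Finset.sum_congr rfl fun l _ => ?_
      rw [map_add, add_mul]
  | smul a x _ hx =>
    obtain ⟨c, hc, rfl⟩ := hx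
    refine ⟨fun l => a • c l, fun l => (Polynomial.natDegree_smul_le _ _).trans (hc l), ?_⟩
    rw [Finset.smul_sum]
    refine Finset.sum_congr rfl fun l _ => ?_
    dsimp only
    rw [Polynomial.smul_eq_C_mul, map_mul, pc_C, Algebra.smul_def, mul_assoc]

/-- elements of `Pd h {1}` are polynomials -/
theorem Pd_one {h : ℕ} {v : S} (hv : v ∈ Pd h {1}) : ∃ p : F, p.natDegree ≤ h ∧ v = pc p := by
  have h1 : ({1} : Set S) = Set.range (fun _ : Fin 1 => (1 : S)) := by
    ext x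
    simp
  rw [h1] at hv
  obtain ⟨c, hc, rfl⟩ := Pd_range hv
  exact ⟨c 0, hc 0, by simp⟩

end Pool.Agent.K7.H45.AB
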