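import Pool.Agent.K7.H45.AB.Elim

set_option autoImplicit false

/-!
# Systems of Mahler functions for a list of bases; Mahler functions; the pattern lemma
-/

namespace Pool.Agent.K7.H45.AB

open PowerSeries

/-- unions of finite Mahler systems of the bases of a list -/
def Sys : List ℕ → Set S → Prop
  | [], 𝒱 => 𝒱 ⊆ {1}
  | b :: bs, 𝒱 => ∃ 𝒱1 𝒰 : Set S, 𝒱 = 𝒱1 ∪ 𝒰 ∧ Mah b 𝒰 ∧ Sys bs 𝒱1

theorem Mah.dl {b d : ℕ} (hb : b ≠ 0) (hd : d ≠ 0) {𝒰 : Set S} (h : Mah b 𝒰) :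
    Mah b (AB.dl d '' 𝒰) := by
  refine ⟨h.1.image _, ?_⟩
  rintro _ ⟨U, hU, rfl⟩
  obtain ⟨p, hp0, h0, hp⟩ := h.2 U hU
  refine ⟨Polynomial.expand (ZMod 2) d p, expand_ne_zero hd hp0, d * h0, ?_⟩
  have h1 := Pd_dl hd hp
  rwa [map_mul, dl_pc hd, image_dl_dl hd hb, mul_comm d b, ← image_dl_dl hb hd] at h1

theorem Mah.union {b : ℕ} {𝒰 𝒰' : Set S} (h : Mah b 𝒰) (h' : Mah b 𝒰') : Mah b (𝒰 ∪ 𝒰') := by
  refine ⟨h.1.union h'.1, ?_⟩
  rintro U (hU | hU)
  · obtain ⟨p, hp0, h0, hp⟩ := h.2 U hU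
    exact ⟨p, hp0, h0, Pd_mono le_rfl (Set.image_mono Set.subset_union_left) hp⟩
  · obtain ⟨p, hp0, h0, hp⟩ := h'.2 U hU
    exact ⟨p, hp0, h0, Pd_mono le_rfl (Set.image_mono Set.subset_union_right) hp⟩

theorem Sys.dl {d : ℕ} (hd : d ≠ 0) : ∀ {bs : List ℕ}, (∀ b ∈ bs, b ≠ 0) → ∀ {𝒱 : Set S},
    Sys bs 𝒱 → Sys bs (AB.dl d '' 𝒱)
  | [], _, 𝒱, h => by
    rintro _ ⟨V, hV, rfl⟩
    have h1 : V = 1 := h hV
    rw [h1, map_one]
    rfl
  | b :: bs, hb, 𝒱, h => by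
    obtain ⟨𝒱1, 𝒰, rfl, hU, hV⟩ := h
    refine ⟨AB.dl d '' 𝒱1, AB.dl d '' 𝒰, Set.image_union _ _ _,
      hU.dl (hb b (List.mem_cons_self)) hd,
      Sys.dl hd (fun b' hb' => hb b' (List.mem_cons_of_mem _ hb')) hV⟩

theorem Sys.union : ∀ {bs : List ℕ} {𝒱 𝒱' : Set S}, Sys bs 𝒱 → Sys bs 𝒱' → Sys bs (𝒱 ∪ 𝒱')
  | [], _, _, h, h' => Set.union_subset h h'
  | b :: bs, _, _, h, h' => by
    obtain ⟨𝒱1, 𝒰, rfl, hU, hV⟩ := h
    obtain ⟨𝒱1', 𝒰', rfl, hU', hV'⟩ := h'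
    exact ⟨𝒱1 ∪ 𝒱1', 𝒰 ∪ 𝒰', Set.union_union_union_comm _ _ _ _, hU.union hU', hV.union hV'⟩

theorem Sys.empty : ∀ (bs : List ℕ), Sys bs ∅
  | [] => Set.empty_subset _
  | _ :: bs => ⟨∅, ∅, (Set.union_empty _).symm,
      ⟨Set.finite_empty, fun _ h => absurd h (Set.notMem_empty _)⟩, Sys.empty bs⟩

theorem Sys.biUnion {bs : List ℕ} (f : ℕ → Set S) (hf : ∀ k, Sys bs (f k)) (n : ℕ) :
    Sys bs (⋃ k ∈ Finset.range n, f k) := by
  induction n with
  | zero => simpa using Sys.empty bs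
  | succ n ih =>
    rw [Finset.range_add_one, Finset.set_biUnion_insert]
    exact (hf n).union ih

/-- **elimination of all Mahler functions** -/
theorem good_of_sys {G : S} (hG : Good G {1}) : ∀ {bs : List ℕ}, (∀ b ∈ bs, 2 ≤ b) → ∀ {𝒱 : Set S},
    Sys bs 𝒱 → Good G 𝒱
  | [], _, 𝒱, h => by
    intro J hJ
    obtain ⟨C, hC⟩ := hG J hJ
    exact ⟨C, fun n a v h1 h2 h3 => hC n a v h1 h2 (Pd_mono le_rfl h h3)⟩
  | b :: bs, hb, 𝒱, h => by
    obtain ⟨𝒱1, 𝒰, rfl, hU, hV⟩ := h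
    have hb2 : 2 ≤ b := hb b List.mem_cons_self
    have hbs : ∀ b' ∈ bs, 2 ≤ b' := fun b' hb' => hb b' (List.mem_cons_of_mem _ hb')
    refine elim hb2 hU fun n => ?_
    apply good_of_sys hG hbs
    exact Sys.biUnion _ (fun k => hV.dl (pow_ne_zero _ (by omega))
      (fun b' hb' => by have := hbs b' hb'; omega)) _

theorem sys_single {b : ℕ} {𝒰 : Set S} (h : Mah b 𝒰) : ∀ {bs : List ℕ}, b ∈ bs → Sys bs 𝒰
  | [], hb => absurd hb (List.not_mem_nil)
  | b' :: bs, hb => by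
    rcases List.mem_cons.1 hb with rfl | hb
    · exact ⟨∅, 𝒰, (Set.empty_union _).symm, h, Sys.empty bs⟩
    · refine ⟨𝒰, ∅, (Set.union_empty _).symm, ⟨Set.finite_empty, fun _ h => absurd h
        (Set.notMem_empty _)⟩, sys_single h hb⟩

/-- Mahler functions of base `b` -/
def IsMahler (b : ℕ) (g : S) : Prop :=
  ∃ (d : ℕ) (p : ℕ → F) (r : F), p 0 ≠ 0 ∧
    ∑ i ∈ Finset.range (d + 1), pc (p i) * dl (b ^ i) g = pc r

theorem mah_one (b : ℕ) : Mah b {1} := by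
  refine ⟨Set.finite_singleton _, ?_⟩
  rintro U hU
  have h1 : U = 1 := hU
  rw [h1]
  refine ⟨1, one_ne_zero, 0, ?_⟩
  rw [map_one, mul_one]
  exact Pd_self ⟨1, rfl, map_one _⟩

theorem mah_of_isMahler {b : ℕ} (hb : b ≠ 0) {g : S} (h : IsMahler b g) :
    ∃ 𝒰 : Set S, Mah b 𝒰 ∧ g ∈ 𝒰 ∧ 1 ∈ 𝒰 := by
  classical
  obtain ⟨d, p, r, hp0, hrel⟩ := h
  have hbi : ∀ i, b ^ i ≠ 0 := fun i => pow_ne_zero _ hb
  set 𝒰 : Set S := {1} ∪ Set.range (fun i : Fin (d + 1) => dl (b ^ (i : ℕ)) g) with h𝒰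
  have hm1 : (1 : S) ∈ 𝒰 := Or.inl rfl
  have hmi : ∀ i, i ≤ d → dl (b ^ i) g ∈ 𝒰 := fun i hi => Or.inr ⟨⟨i, by omega⟩, rfl⟩
  have hmi' : ∀ i, i ≤ d → dl (b ^ (i + 1)) g ∈ dl b '' 𝒰 := fun i hi =>
    ⟨_, hmi i hi, by rw [dl_dl hb (hbi i), pow_succ, mul_comm]⟩
  have hm1' : (1 : S) ∈ dl b '' 𝒰 := ⟨1, hm1, map_one _⟩
  refine ⟨𝒰, ⟨(Set.finite_singleton _).union (Set.finite_range _), ?_⟩, ?_, hm1⟩
  · rintro U (hU | ⟨i, rfl⟩)
    · have h1 : U = 1 := hU
      rw [h1]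
      refine ⟨1, one_ne_zero, 0, ?_⟩
      rw [map_one, mul_one]
      exact Pd_self hm1'
    · dsimp only
      by_cases hi : (i : ℕ) = 0
      · rw [hi, pow_zero, dl_one]
        rw [Finset.sum_range_succ', pow_zero, dl_one] at hrel
        refine ⟨p 0, hp0, r.natDegree + ∑ i ∈ Finset.range d, (p (i + 1)).natDegree, ?_⟩
        have h1 : pc (p 0) * g = pc r - ∑ i ∈ Finset.range d, pc (p (i + 1)) *
            dl (b ^ (i + 1)) g := by
          rw [← hrel]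
          ring
        rw [h1]
        refine Submodule.sub_mem _ ?_ (Submodule.sum_mem _ fun i hi => ?_)
        · have := Pd_mem (h := r.natDegree + ∑ i ∈ Finset.range d, (p (i + 1)).natDegree)
            (p := r) (Nat.le_add_right _ _) hm1'
          rwa [mul_one] at this
        · rw [Finset.mem_range] at hi
          refine Pd_mem ?_ (hmi' i (by omega))
          refine le_trans ?_ (Nat.le_add_left _ _)
          exact Finset.single_le_sum (f := fun i => (p (i + 1)).natDegree)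
            (fun _ _ => Nat.zero_le _) (Finset.mem_range.2 hi)
      · obtain ⟨j, hj⟩ := Nat.exists_eq_succ_of_ne_zero hi
        refine ⟨1, one_ne_zero, 0, ?_⟩
        rw [map_one, one_mul, hj]
        exact Pd_self (hmi' j (by have := i.2; omega))
  · have := hmi 0 (Nat.zero_le _)
    rwa [pow_zero, dl_one] at this

/-- combinations of the sequences `n ↦ V(n + i)`, `i < K` -/
def Sh (K : ℕ) (𝒱 : Set S) : Submodule (ZMod 2) (ℕ → ZMod 2) :=
  Submodule.span (ZMod 2) {w | ∃ V ∈ 𝒱, ∃ i < K, w = fun n => coeff (n + i) V}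

theorem sh_pd {K : ℕ} {𝒱 : Set S} {w : ℕ → ZMod 2} (hw : w ∈ Sh (K + 1) 𝒱) :
    ∃ v ∈ Pd K 𝒱, ∀ n, coeff (n + K) v = w n := by
  induction hw using Submodule.span_induction with
  | mem w hw =>
    obtain ⟨V, hV, i, hi, rfl⟩ := hw
    refine ⟨pc (Polynomial.X ^ (K - i)) * V, Pd_mem ?_ hV, fun n => ?_⟩
    · rw [Polynomial.natDegree_X_pow]
      omega
    · rw [map_pow, pc_X]
      have h1 : n + K = (n + i) + (K - i) := by omega
      rw [h1, PowerSeries.coeff_X_pow_mul]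
  | zero => exact ⟨0, Submodule.zero_mem _, fun n => by rw [map_zero]; rfl⟩
  | add x y _ _ hx hy =>
    obtain ⟨v, hv, h1⟩ := hx
    obtain ⟨v', hv', h2⟩ := hy
    exact ⟨v + v', Submodule.add_mem _ hv hv', fun n => by rw [map_add, h1, h2]; rfl⟩
  | smul a x _ hx =>
    obtain ⟨v, hv, h1⟩ := hx
    exact ⟨a • v, Submodule.smul_mem _ _ hv, fun n => by rw [map_smul, h1]; rfl⟩

/-- **the pattern lemma** -/
theorem pat {G : S} {𝒱 : Set S} (hG : Good G 𝒱) (h1 : (1 : S) ∈ 𝒱) :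
    ∃ C : ℕ, ∀ (K : ℕ) (c : ℕ → ZMod 2) (w : ℕ → ZMod 2), (∃ i < K, c i ≠ 0) → w ∈ Sh K 𝒱 →
      ∀ (κ : ZMod 2) (A : ℕ), ∃ n, A ≤ n ∧ n ≤ C * (A + K) ∧
        ∑ i ∈ Finset.range K, c i * coeff (n + i) G + w n = κ := by
  classical
  obtain ⟨C, hC⟩ := hG {1} (by simp)
  refine ⟨2 * C, fun K c w hc hw κ A => ?_⟩
  obtain ⟨K, rfl⟩ : ∃ K', K = K' + 1 := by
    obtain ⟨i, hi, -⟩ := hc
    exact ⟨K - 1, by omega⟩
  obtain ⟨v, hv, hvw⟩ := sh_pd hw
  by_contra hcon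
  push Not at hcon
  have hne1 : ∀ a b : ZMod 2, a ≠ b → a = b + 1 := by decide
  set B := 2 * C * (A + (K + 1)) with hB
  have hrun : ∀ n, A ≤ n → n ≤ B →
      ∑ i ∈ Finset.range (K + 1), c i * coeff (n + i) G + w n = κ + 1 :=
    fun n h2 h3 => hne1 _ _ (hcon n h2 h3)
  set a : F := ∑ i ∈ Finset.range (K + 1), Polynomial.C (c i) * Polynomial.X ^ (K - i) with ha
  set l0 : S := pc a * G + v with hl0
  have hco : ∀ n, coeff (n + K) l0 =
      ∑ i ∈ Finset.range (K + 1), c i * coeff (n + i) G + w n := by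
    intro n
    rw [hl0, map_add, hvw, ha, map_sum, Finset.sum_mul, map_sum]
    congr 1
    refine Finset.sum_congr rfl fun i hi => ?_
    rw [Finset.mem_range] at hi
    have h3 : n + K = (n + i) + (K - i) := by omega
    rw [map_mul pc, map_pow pc, pc_X, pc_C, mul_assoc, h3, ← Algebra.smul_def, map_smul,
      PowerSeries.coeff_X_pow_mul, smul_eq_mul]
  set U : F := 1 + Polynomial.X with hU
  have hU0 : U ≠ 0 := by
    intro h0
    have h1 := congrArg (fun g : F => g.coeff 0) h0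
    simp [hU] at h1
  have hUd : U.natDegree ≤ 1 :=
    (Polynomial.natDegree_add_le _ _).trans (max_le (by simp) Polynomial.natDegree_X_le)
  have had : a.natDegree ≤ K := by
    refine Polynomial.natDegree_sum_le_of_forall_le _ _ fun i _ => ?_
    exact (Polynomial.natDegree_C_mul_X_pow_le _ _).trans (Nat.sub_le _ _)
  have ha0 : a ≠ 0 := by
    intro h0
    obtain ⟨i, hi, hci⟩ := hc
    apply hci
    have h2 := congrArg (fun g : F => g.coeff (K - i)) h0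
    simp only [ha, Polynomial.finsetSum_coeff, Polynomial.coeff_C_mul, Polynomial.coeff_X_pow,
      Polynomial.coeff_zero] at h2
    rw [Finset.sum_eq_single i] at h2
    · rwa [if_pos rfl, mul_one] at h2
    · intro j hj hji
      rw [Finset.mem_range] at hj
      rw [if_neg (by omega), mul_zero]
    · intro h3
      exact absurd (Finset.mem_range.2 hi) h3
  set g : S := pc U * l0 with hg
  set b0 : F := PowerSeries.trunc (A + K + 1) g with hb0
  set v' : S := pc U * v + pc b0 with hv'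
  have hv'm : v' ∈ Pd (A + K + 1) 𝒱 := by
    refine Submodule.add_mem _ ?_ ?_
    · exact Pd_mono (by omega) (le_refl 𝒱) (Pd_mul hv hUd)
    · have h2 : b0.natDegree ≤ A + K + 1 := (PowerSeries.natDegree_trunc_lt g (A + K)).le.trans
        (by omega)
      have := Pd_mem h2 h1
      rwa [mul_one] at this
  have hform : ∑ m ∈ ({1} : Finset ℕ), pc ((fun _ => U * a) m) * dl m G + v' = g + pc b0 := by
    rw [Finset.sum_singleton, dl_one, hv', hg, hl0, map_mul]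
    ring
  have hdvd : (X : S) ^ (B + K + 1) ∣
      ∑ m ∈ ({1} : Finset ℕ), pc ((fun _ => U * a) m) * dl m G + v' := by
    rw [hform, PowerSeries.X_pow_dvd_iff]
    intro m hm
    rw [map_add, coeff_pc, hb0, PowerSeries.coeff_trunc]
    split_ifs with h2
    · exact (by decide : ∀ a : ZMod 2, a + a = 0) _
    · rw [add_zero]
      obtain ⟨n, rfl⟩ : ∃ n, m = n + 1 + K := ⟨m - 1 - K, by omega⟩
      have e : g = l0 + X * l0 := by
        rw [hg, hU, map_add, map_one, pc_X]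
        ring
      have e3 : n + 1 + K = (n + K) + 1 := by ring
      rw [e, map_add]
      conv_lhs =>
        congr
        · rw [hco]
        · rw [e3, PowerSeries.coeff_succ_X_mul, hco]
      rw [hrun n (by omega) (by omega), hrun (n + 1) (by omega) (by omega)]
      exact (by decide : ∀ a : ZMod 2, a + a = 0) _
  have h3 := hC (A + K + 1) (fun _ => U * a) v' (fun m _ => by
      refine Polynomial.natDegree_mul_le.trans ?_
      omega) ⟨1, Finset.mem_singleton_self _, mul_ne_zero hU0 ha0⟩ hv'm _ hdvd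
  have h4 : C * (A + K + 1 + 1) ≤ B := by
    rw [hB, mul_assoc, mul_left_comm]
    refine Nat.mul_le_mul_left _ ?_
    omega
  omega

end Pool.Agent.K7.H45.AB
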